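import Pool.Agent.Helper35_PP.Tools

/-!
# Module E: existence of good chords
-/

namespace Helper35_PP

open H91PP H91PP.TriSphere

/-! ## descending chains -/

inductive Desc {V : Type} (B : Set V) (π : V → V) : V → List V → V → Prop
  | base (x : V) : x ∈ B → Desc B π x [x] x
  | step (x : V) (l : List V) (r : V) : x ∉ B → Desc B π (π x) l r → Desc B π x (x :: l) r

namespace Desc

variable {V : Type} {B : Set V} {π : V → V}

theorem head {x : V} {l : List V} {r : V} (h : Desc B π x l r) : ∃ l', l = x :: l' := by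
  cases h with
  | base _ h => exact ⟨[], rfl⟩
  | step _ l _ h1 h2 => exact ⟨l, rfl⟩

theorem uniq {x : V} {l : List V} {r : V} (h : Desc B π x l r) :
    ∀ l' r', Desc B π x l' r' → l = l' ∧ r = r' := by
  induction h with
  | base x hx =>
    intro l' r' h
    cases h with
    | base _ _ => exact ⟨rfl, rfl⟩
    | step _ _ _ h1 _ => exact absurd hx h1
  | step x l r hx _ ih =>
    intro l' r' h
    cases h with
    | base _ h1 => exact absurd h1 hx
    | step _ l2 _ _ h2 =>
      obtain ⟨h3, h4⟩ := ih _ _ h2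
      exact ⟨by rw [h3], h4⟩

theorem mem {x : V} {l : List V} {r : V} (h : Desc B π x l r) :
    ∀ v ∈ l, ∃ l', Desc B π v l' r := by
  induction h with
  | base x hx =>
    intro v hv
    rw [List.mem_singleton] at hv
    subst hv
    exact ⟨[v], Desc.base v hx⟩
  | step x l r hx h ih =>
    intro v hv
    rcases List.mem_cons.1 hv with h1 | h1
    · subst h1
      exact ⟨v :: l, Desc.step v l r hx h⟩
    · exact ih v h1

theorem last {x : V} {l : List V} {r : V} (h : Desc B π x l r) :
    r ∈ B ∧ ∃ t, l = t ++ [r] ∧ ∀ v ∈ t, v ∉ B := by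
  induction h with
  | base x hx => exact ⟨hx, [], rfl, by simp⟩
  | step x l r hx _ ih =>
    obtain ⟨h1, t, h2, h3⟩ := ih
    refine ⟨h1, x :: t, by rw [h2]; rfl, ?_⟩
    intro v hv
    rcases List.mem_cons.1 hv with h4 | h4
    · rw [h4]; exact hx
    · exact h3 v h4

theorem props {Adj : V → V → Prop} {G : Set V} {m : V → ℕ}
    (hπ : ∀ x ∈ G, x ∉ B → π x ∈ G ∧ Adj x (π x) ∧ m x = m (π x) + 1)
    {x : V} {l : List V} {r : V} (h : Desc B π x l r) : x ∈ G →
    List.IsChain Adj l ∧ List.IsChain (fun a b => m a = m b + 1) l ∧ ∀ v ∈ l, v ∈ G := by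
  induction h with
  | base x hx =>
    intro hG
    refine ⟨List.isChain_singleton _, List.isChain_singleton _, ?_⟩
    intro v hv
    rw [List.mem_singleton] at hv
    rw [hv]; exact hG
  | step x l r hx h ih =>
    intro hG
    obtain ⟨h1, h2, h3⟩ := hπ x hG hx
    obtain ⟨c1, c2, c3⟩ := ih h1
    obtain ⟨l', hl'⟩ := h.head
    subst hl'
    refine ⟨List.isChain_cons_cons.2 ⟨h2, c1⟩, List.isChain_cons_cons.2 ⟨h3, c2⟩, ?_⟩
    intro v hv
    rcases List.mem_cons.1 hv with h4 | h4
    · rw [h4]; exact hG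
    · exact c3 v h4

theorem exists_desc {G : Set V} {m : V → ℕ}
    (hπ : ∀ x ∈ G, x ∉ B → π x ∈ G ∧ m x = m (π x) + 1) :
    ∀ n x, x ∈ G → m x = n → ∃ l r, Desc B π x l r := by
  intro n
  induction n with
  | zero =>
    intro x hx hm
    by_cases hB : x ∈ B
    · exact ⟨_, _, Desc.base x hB⟩
    · have := (hπ x hx hB).2
      omega
  | succ n ih =>
    intro x hx hm
    by_cases hB : x ∈ B
    · exact ⟨_, _, Desc.base x hB⟩
    · obtain ⟨h1, h2⟩ := hπ x hx hB
      obtain ⟨l, r, h⟩ := ih (π x) h1 (by omega)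
      exact ⟨_, _, Desc.step x l r hB h⟩

end Desc

/-! ## the graph of a region -/

section graph

variable (S : TriSphere)

theorem adj_VR {R : Set S.T} {x y : S.V} (h : (S.gr R).Adj x y) :
    x ∈ S.VR R ∧ y ∈ S.VR R := by
  obtain ⟨e, he, hj⟩ := h
  have key : S.a e ∈ S.VR R ∧ S.b e ∈ S.VR R := by
    rcases he with he | he
    · obtain ⟨i, hi⟩ := S.l_s e
      have := S.s_ends (S.l e) i
      rw [hi] at this
      rcases this with h | h
      · exact ⟨⟨_, he, i, h.1.symm⟩, ⟨_, he, i + 1, h.2.symm⟩⟩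
      · exact ⟨⟨_, he, i + 1, h.1.symm⟩, ⟨_, he, i, h.2.symm⟩⟩
    · obtain ⟨i, hi⟩ := S.r_s e
      have := S.s_ends (S.r e) i
      rw [hi] at this
      rcases this with h | h
      · exact ⟨⟨_, he, i, h.1.symm⟩, ⟨_, he, i + 1, h.2.symm⟩⟩
      · exact ⟨⟨_, he, i + 1, h.1.symm⟩, ⟨_, he, i, h.2.symm⟩⟩
  rcases hj with h | h
  · rw [← h.1, ← h.2]; exact key
  · rw [← h.1, ← h.2]; exact ⟨key.2, key.1⟩

theorem isW_head : ∀ (L : List (S.V × S.E)) (u w : S.V), S.IsW u L w →
    u ∈ L.map Prod.fst ∨ u = w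
  | [], u, w, h => Or.inr h
  | p :: L, u, w, h => Or.inl (by
      have := h.1
      simp [this])

theorem isW_ends : ∀ (L : List (S.V × S.E)) (u w : S.V), S.IsW u L w →
    ∀ e ∈ L.map Prod.snd, ∀ x y, S.Joins e x y → x ∈ L.map Prod.fst ∨ x = w
  | [], u, w, _, e, he, _, _, _ => by simp at he
  | p :: L, u, w, h, e, he, x, y, hj => by
    obtain ⟨h1, v', h2, h3⟩ := h
    rw [List.map_cons, List.mem_cons] at he
    rcases he with he | he
    · subst he
      have hx : x = p.1 ∨ x = v' := by
        rcases hj with ⟨ha, hb⟩ | ⟨ha, hb⟩ <;> rcases h2 with ⟨hc, hd⟩ | ⟨hc, hd⟩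
        · left; rw [← ha, hc]
        · right; rw [← ha, hc]
        · right; rw [← hb, hd]
        · left; rw [← hb, hd]
      rcases hx with hx | hx
      · left; simp [hx]
      · rcases isW_head S L v' w h3 with h4 | h4
        · left
          rw [List.map_cons, List.mem_cons]
          right
          rw [hx]; exact h4
        · right; rw [hx]; exact h4
    · rcases isW_ends L v' w h3 e he x y hj with h4 | h4
      · left
        rw [List.map_cons, List.mem_cons]
        exact Or.inr h4
      · exact Or.inr h4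

variable {S}

theorem base_mem {R : Set S.T} {L : List (S.V × S.E)} {u : S.V} (h : S.IsRegion R L u) :
    u ∈ L.map Prod.fst := by
  have h1 := h.walk
  cases L with
  | nil => exact absurd rfl h.ne
  | cons p L =>
    have := h1.1
    simp [this]

theorem region_ends {R : Set S.T} {L : List (S.V × S.E)} {u : S.V} (h : S.IsRegion R L u) :
    ∀ e ∈ L.map Prod.snd, ∀ x y, S.Joins e x y → x ∈ L.map Prod.fst := by
  intro e he x y hj
  rcases isW_ends S L u u h.walk e he x y hj with h1 | h1
  · exact h1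
  · rw [h1]; exact base_mem h

/-- the edges of the region which are not on the boundary -/
def inner (S : TriSphere) (R : Set S.T) (L : List (S.V × S.E)) : Set S.E :=
  {e | e ∈ S.ER R ∧ e ∉ L.map Prod.snd}

theorem adj_inner {R : Set S.T} {L : List (S.V × S.E)} {u : S.V} (h : S.IsRegion R L u)
    {x y : S.V} (hxy : (S.gr R).Adj x y)
    (hn : x ∉ L.map Prod.fst ∨ y ∉ L.map Prod.fst) : (S.grE (inner S R L)).Adj x y := by
  obtain ⟨e, he, hj⟩ := hxy
  refine ⟨e, ⟨he, ?_⟩, hj⟩
  intro heL
  have h1 := region_ends h e heL x y hj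
  have h2 := region_ends h e heL y x hj.symm
  rcases hn with hn | hn
  · exact hn h1
  · exact hn h2

theorem inner_le {R : Set S.T} {L : List (S.V × S.E)} {x y : S.V}
    (hxy : (S.grE (inner S R L)).Adj x y) : (S.gr R).Adj x y := by
  obtain ⟨e, he, hj⟩ := hxy
  exact ⟨e, he.1, hj⟩

theorem toW (Z : Set S.E) : ∀ (l : List S.V) (a w : S.V),
    List.IsChain (S.grE Z).Adj ((a :: l) ++ [w]) →
    ∃ P : List (S.V × S.E), P.map Prod.fst = a :: l ∧ S.IsW a P w ∧
      ∀ e ∈ P.map Prod.snd, e ∈ Z
  | [], a, w, h => by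
    rw [List.singleton_append, List.isChain_cons_cons] at h
    obtain ⟨e, he, hj⟩ := h.1
    refine ⟨[(a, e)], rfl, ⟨rfl, w, hj, rfl⟩, ?_⟩
    intro e' he'
    simp only [List.map_cons, List.map_nil, List.mem_singleton] at he'
    rw [he']; exact he
  | c :: l, a, w, h => by
    rw [List.cons_append, List.cons_append, List.isChain_cons_cons] at h
    obtain ⟨⟨e, he, hj⟩, h2⟩ := h
    obtain ⟨P, h3, h4, h5⟩ := toW Z l c w (by rw [List.cons_append]; exact h2)
    refine ⟨(a, e) :: P, by rw [List.map_cons, h3], ⟨rfl, c, hj, h4⟩, ?_⟩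
    intro e' he'
    rw [List.map_cons, List.mem_cons] at he'
    rcases he' with h6 | h6
    · rw [h6]; exact he
    · exact h5 e' h6

/-- walks realising the extension -/
theorem ext_walk {V : Type} {Γ : SimpleGraph V} {B : Set V} {ℓ m : V → ℕ}
    (h : IsExt Γ B ℓ m) : ∀ n x, m x = n → (∃ b ∈ B, Γ.Reachable b x) →
    ∃ b ∈ B, ∃ p : Γ.Walk b x, ℓ b + p.length = m x := by
  intro n
  induction n with
  | zero =>
    intro x hx hr
    by_cases hB : x ∈ B
    · exact ⟨x, hB, SimpleGraph.Walk.nil, by simp [h.eq x hB]⟩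
    · obtain ⟨y, _, hy⟩ := h.par x hr hB
      omega
  | succ n ih =>
    intro x hx hr
    by_cases hB : x ∈ B
    · exact ⟨x, hB, SimpleGraph.Walk.nil, by simp [h.eq x hB]⟩
    · obtain ⟨y, hxy, hy⟩ := h.par x hr hB
      obtain ⟨b0, hb0, hr0⟩ := hr
      obtain ⟨b, hb, p, hp⟩ := ih y (by omega) ⟨b0, hb0, hr0.trans hxy.reachable⟩
      refine ⟨b, hb, p.append (SimpleGraph.Walk.cons hxy.symm SimpleGraph.Walk.nil), ?_⟩
      rw [SimpleGraph.Walk.length_append]
      simp only [SimpleGraph.Walk.length_cons, SimpleGraph.Walk.length_nil]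
      omega

/-! ## the last step -/

theorem finish {M : ℕ} (hM : 2 ≤ M) (hFold : FoldStatement) {R : Set S.T}
    {L : List (S.V × S.E)} {u : S.V} (_hreg : S.IsRegion R L u) (ℓ : S.V → ℕ)
    (hℓM : ∀ v ∈ L.map Prod.fst, ℓ v ≤ M) (f : S.V → ℕ)
    (hfB : ∀ v ∈ L.map Prod.fst, f v = ℓ v)
    (hflip : ∀ x y, (S.gr R).Adj x y → f y ≤ f x + 1)
    {b1 b2 : S.V} (hb1 : b1 ∈ L.map Prod.fst) (hb2 : b2 ∈ L.map Prod.fst) (hne : b1 ≠ b2)
    (A0 A1 A2 A3 : List S.V)
    (hch : List.IsChain (S.grE (inner S R L)).Adj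
      (b1 :: (A0 ++ A1 ++ A2 ++ A3) ++ [b2]))
    (hnd : (A0 ++ A1 ++ A2 ++ A3).Nodup)
    (hint : ∀ v ∈ A0 ++ A1 ++ A2 ++ A3, v ∉ L.map Prod.fst)
    (hf6 : ∀ v ∈ A0 ++ A1 ++ A2 ++ A3, f v < 6 * M)
    (h0 : A0.Pairwise (fun a b => f a < f b))
    (h1 : A1.Pairwise (fun a b => f b < f a))
    (h2 : A2.Pairwise (fun a b => f a < f b))
    (h3 : A3.Pairwise (fun a b => f b < f a)) :
    ∃ (Q : List (S.V × S.E)) (ℓ' κ : S.V → ℕ),
      S.IsChord R L Q b1 b2 ∧
      (∀ v ∈ L.map Prod.fst, ℓ' v = ℓ v) ∧
      (∀ v, ℓ' v ≤ M) ∧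
      (∀ x y, (S.gr R).Adj x y → x ∈ S.VR R → ℓ' y ≤ ℓ' x + 1) ∧
      (∀ v, κ v < 24) ∧
      (∀ x ∈ (Q.map Prod.fst).tail, ∀ y ∈ (Q.map Prod.fst).tail,
        κ x = κ y → ℓ' x = ℓ' y → x = y) ∧
      chg κ (Q.map Prod.fst).tail ≤ 23 := by
  obtain ⟨fo1, fo2, fo3, fo4⟩ := hFold M (by omega)
  obtain ⟨κ, k1, k2, k3⟩ := kappa M (fold M) fo4 f A0 A1 A2 A3 hnd hf6 h0 h1 h2 h3
  obtain ⟨Q, q1, q2, q3⟩ := toW (inner S R L) (A0 ++ A1 ++ A2 ++ A3) b1 b2 hch
  have htail : (Q.map Prod.fst).tail = A0 ++ A1 ++ A2 ++ A3 := by rw [q1]; rfl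
  refine ⟨Q, fun v => fold M (f v), κ, ?_, ?_, ?_, ?_, k1, ?_, ?_⟩
  · refine ⟨q2, ?_, hne, hb1, hb2, ?_, ?_, ?_⟩
    · rintro rfl
      simp at q1
    · rw [q1, List.cons_append, List.nodup_cons]
      refine ⟨?_, ?_⟩
      · rw [List.mem_append, List.mem_singleton]
        rintro (h | h)
        · exact hint b1 h hb1
        · exact hne h
      · rw [List.nodup_append]
        refine ⟨hnd, List.nodup_singleton _, ?_⟩
        intro a ha b hb hab
        rw [List.mem_singleton] at hb
        rw [hab, hb] at ha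
        exact hint b2 ha hb2
    · intro v hv
      rw [q1, List.mem_cons] at hv
      rcases hv with h | h
      · exact Or.inl h
      · exact Or.inr (hint v h)
    · exact q3
  · intro v hv
    show fold M (f v) = ℓ v
    rw [hfB v hv]
    exact fo2 _ (hℓM v hv)
  · intro v
    exact fo1 _
  · intro x y hxy _
    show fold M (f y) ≤ fold M (f x) + 1
    have a1 := hflip x y hxy
    have a2 := hflip y x hxy.symm
    rcases Nat.lt_trichotomy (f x) (f y) with h | h | h
    · have : f y = f x + 1 := by omega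
      rw [this]
      exact (fo3 _).1
    · rw [h]; exact Nat.le_succ _
    · have : f x = f y + 1 := by omega
      rw [this]
      exact (fo3 _).2
  · rw [htail]
    exact k2
  · rw [htail]
    exact k3

theorem pw_of_chain {V : Type} {m : V → ℕ} {l : List V}
    (h : List.IsChain (fun a b => m a = m b + 1) l) :
    l.Pairwise (fun a b => m b < m a) := by
  have h1 : List.IsChain (fun a b => m b < m a) l := h.imp (fun {a b} h => by omega)
  let _ : Trans (fun a b : V => m b < m a) (fun a b : V => m b < m a)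
      (fun a b : V => m b < m a) := ⟨fun h1 h2 => lt_trans h2 h1⟩
  exact h1.pairwise

theorem lam_desc {R : Set S.T} {L : List (S.V × S.E)} {u : S.V} (hreg : S.IsRegion R L u)
    {m lam : S.V → ℕ} {v1 : S.V} (hlam : IsExt (S.gr R) {v1} (fun _ => 0) lam)
    (hmlip : ∀ x y, (S.gr R).Adj x y → m y ≤ m x + 1)
    (hreach : ∀ x ∈ S.VR R, (S.gr R).Reachable v1 x)
    (hB : ∀ z ∈ L.map Prod.fst, m z < lam z) :
    ∀ n z, lam z = n → z ∈ S.VR R → lam z ≤ m z →
      ∃ C : List S.V, List.IsChain (S.grE (inner S R L)).Adj (z :: C) ∧ v1 ∈ z :: C ∧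
        (z :: C).Pairwise (fun a b => lam b < lam a) ∧ ∀ c ∈ z :: C, lam c ≤ m c := by
  intro n
  induction n with
  | zero =>
    intro z hz hzR hle
    by_cases hv : z = v1
    · refine ⟨[], List.isChain_singleton _, by simp [hv], List.pairwise_singleton _ _, ?_⟩
      intro c hc
      rw [List.mem_singleton] at hc
      rw [hc]; exact hle
    · obtain ⟨y, _, hy⟩ := hlam.par z ⟨v1, rfl, hreach z hzR⟩ hv
      omega
  | succ n ih =>
    intro z hz hzR hle
    by_cases hv : z = v1
    · refine ⟨[], List.isChain_singleton _, by simp [hv], List.pairwise_singleton _ _, ?_⟩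
      intro c hc
      rw [List.mem_singleton] at hc
      rw [hc]; exact hle
    · obtain ⟨y, hzy, hy⟩ := hlam.par z ⟨v1, rfl, hreach z hzR⟩ hv
      have h1 := hmlip y z hzy.symm
      obtain ⟨C, c1, c2, c3, c4⟩ := ih y (by omega) (adj_VR S hzy).2 (by omega)
      have hz : z ∉ L.map Prod.fst := fun h => by
        have := hB z h
        omega
      refine ⟨y :: C, List.isChain_cons_cons.2 ⟨adj_inner hreg hzy (Or.inl hz), c1⟩,
        List.mem_cons_of_mem _ c2, ?_, ?_⟩
      · rw [List.pairwise_cons]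
        refine ⟨?_, c3⟩
        intro c hc
        rcases List.mem_cons.1 hc with h | h
        · rw [h]; omega
        · have := (List.pairwise_cons.1 c3).1 c h
          omega
      · intro c hc
        rcases List.mem_cons.1 hc with h | h
        · rw [h]; exact hle
        · exact c4 c h

theorem chord : ChordThm := by
  intro S M hM hRF hBfs hFold hShort R L u hreg ℓ hℓM hℓlip
  obtain ⟨m, hm⟩ := hBfs S.V (S.gr R) {v | v ∈ L.map Prod.fst} ℓ hℓlip
  have hu : u ∈ L.map Prod.fst := base_mem hreg
  have hconn : ∀ x ∈ S.VR R, (S.gr R).Reachable u x := fun x hx => hRF.conn R L u hreg x hx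
  have hreach : ∀ x ∈ S.VR R, ∃ b ∈ {v | v ∈ L.map Prod.fst}, (S.gr R).Reachable b x :=
    fun x hx => ⟨u, hu, hconn x hx⟩
  have hBVR : ∀ b ∈ L.map Prod.fst, b ∈ S.VR R := hRF.bdV R L u hreg
  have hmlip : ∀ x y, (S.gr R).Adj x y → m y ≤ m x + 1 :=
    fun x y h => hm.lip x y h (hreach x (adj_VR S h).1)
  have hmB : ∀ v ∈ L.map Prod.fst, m v = ℓ v := fun v hv => hm.eq v hv
  have hpar : ∀ x, ∃ y, x ∈ S.VR R → x ∉ L.map Prod.fst →
      y ∈ S.VR R ∧ (S.gr R).Adj x y ∧ m x = m y + 1 := by
    intro x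
    by_cases h : x ∈ S.VR R ∧ x ∉ L.map Prod.fst
    · obtain ⟨y, h1, h2⟩ := hm.par x (hreach x h.1) h.2
      exact ⟨y, fun _ _ => ⟨(adj_VR S h1).2, h1, h2⟩⟩
    · exact ⟨x, fun h1 h2 => absurd ⟨h1, h2⟩ h⟩
  choose π hπ using hpar
  have hrt : ∀ x, ∃ r, x ∈ S.VR R → ∃ l, Desc {v | v ∈ L.map Prod.fst} π x l r := by
    intro x
    by_cases h : x ∈ S.VR R
    · obtain ⟨l, r, hd⟩ := Desc.exists_desc (B := {v | v ∈ L.map Prod.fst}) (G := S.VR R)
        (m := m) (fun x hx hB => ⟨(hπ x hx hB).1, (hπ x hx hB).2.2⟩) (m x) x h rfl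
      exact ⟨r, fun _ => ⟨l, hd⟩⟩
    · exact ⟨x, fun h' => absurd h' h⟩
  choose rt hrt using hrt
  refine ⟨rt, ?_, ?_, ?_⟩
  · intro x hx
    obtain ⟨l, hl⟩ := hrt x hx
    exact hl.last.1
  · intro x hx
    obtain ⟨l, hl⟩ := hrt x (hBVR x hx)
    exact ((Desc.base x hx).uniq _ _ hl).2.symm
  intro e x1 x2 he heL hj hne
  have hadj : (S.gr R).Adj x1 x2 := ⟨e, he, hj⟩
  have hadj' : (S.grE (inner S R L)).Adj x1 x2 := ⟨e, ⟨he, heL⟩, hj⟩
  have hx1 := (adj_VR S hadj).1
  have hx2 := (adj_VR S hadj).2
  obtain ⟨l1, hl1⟩ := hrt x1 hx1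
  obtain ⟨l2, hl2⟩ := hrt x2 hx2
  have disj : ∀ v ∈ l1, v ∉ l2 := by
    intro v h1 h2
    obtain ⟨_, h3⟩ := hl1.mem v h1
    obtain ⟨_, h4⟩ := hl2.mem v h2
    exact hne (h3.uniq _ _ h4).2
  have hπ' : ∀ x ∈ S.VR R, x ∉ {v | v ∈ L.map Prod.fst} →
      π x ∈ S.VR R ∧ (S.grE (inner S R L)).Adj x (π x) ∧ m x = m (π x) + 1 :=
    fun x hx hB => ⟨(hπ x hx hB).1, adj_inner hreg (hπ x hx hB).2.1 (Or.inl hB),
      (hπ x hx hB).2.2⟩
  obtain ⟨ch1, up1, vr1⟩ := hl1.props hπ' hx1
  obtain ⟨ch2, up2, vr2⟩ := hl2.props hπ' hx2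
  have pw1 := pw_of_chain up1
  have pw2 := pw_of_chain up2
  obtain ⟨hb1, t1, ht1, hB1⟩ := hl1.last
  obtain ⟨hb2, t2, ht2, hB2⟩ := hl2.last
  obtain ⟨k1, hk1⟩ := hl1.head
  obtain ⟨k2, hk2⟩ := hl2.head
  have hsymm : ∀ l : List S.V, List.IsChain (S.grE (inner S R L)).Adj l.reverse ↔
      List.IsChain (S.grE (inner S R L)).Adj l := by
    intro l
    rw [List.isChain_reverse]
    constructor
    · intro h; exact h.imp (fun {a b} h => h.symm)
    · intro h; exact h.imp (fun {a b} h => h.symm)
  by_cases hbig : m x1 < 4 * M + 2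
  · -- case 1
    have hW : rt x1 :: (t1.reverse ++ [] ++ [] ++ t2) ++ [rt x2] =
        k1.reverse ++ x1 :: (x2 :: k2) := by
      have e1 : rt x1 :: t1.reverse = k1.reverse ++ [x1] := by
        have : (t1 ++ [rt x1]).reverse = (x1 :: k1).reverse := by rw [← ht1, hk1]
        simpa using this
      have e2 : t2 ++ [rt x2] = x2 :: k2 := by rw [← ht2, hk2]
      calc rt x1 :: (t1.reverse ++ [] ++ [] ++ t2) ++ [rt x2]
          = (rt x1 :: t1.reverse) ++ (t2 ++ [rt x2]) := by simp
        _ = _ := by rw [e1, e2]; simp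
    refine finish hM hFold hreg ℓ hℓM m hmB hmlip hb1 hb2 hne t1.reverse [] [] t2
      ?_ ?_ ?_ ?_ ?_ List.Pairwise.nil List.Pairwise.nil ?_
    · rw [hW]
      refine glue ?_ ?_
      · have : k1.reverse ++ [x1] = l1.reverse := by rw [hk1]; simp
        rw [this, hsymm]
        exact ch1
      · rw [List.isChain_cons_cons]
        refine ⟨hadj', ?_⟩
        rw [← hk2]; exact ch2
    · simp only [List.append_nil]
      rw [List.nodup_append]
      refine ⟨?_, ?_, ?_⟩
      · rw [List.nodup_reverse]
        rw [ht1] at pw1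
        exact (List.pairwise_append.1 pw1).1.imp (fun {a b} h => by
          rintro rfl
          exact lt_irrefl _ h)
      · rw [ht2] at pw2
        exact (List.pairwise_append.1 pw2).1.imp (fun {a b} h => by
          rintro rfl
          exact lt_irrefl _ h)
      · intro a ha b hb hab
        rw [List.mem_reverse] at ha
        subst hab
        exact disj a (by rw [ht1]; simp [ha]) (by rw [ht2]; simp [hb])
    · intro v hv
      simp only [List.append_nil, List.mem_append, List.mem_reverse] at hv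
      rcases hv with h | h
      · exact hB1 v h
      · exact hB2 v h
    · intro v hv
      simp only [List.append_nil, List.mem_append, List.mem_reverse] at hv
      have b12 := hmlip x1 x2 hadj
      rcases hv with h | h
      · have hv : v ∈ l1 := by rw [ht1]; simp [h]
        have : m v ≤ m x1 := by
          rw [hk1] at hv pw1
          rcases List.mem_cons.1 hv with h' | h'
          · rw [h']
          · exact ((List.pairwise_cons.1 pw1).1 v h').le
        omega
      · have hv : v ∈ l2 := by rw [ht2]; simp [h]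
        have : m v ≤ m x2 := by
          rw [hk2] at hv pw2
          rcases List.mem_cons.1 hv with h' | h'
          · rw [h']
          · exact ((List.pairwise_cons.1 pw2).1 v h').le
        omega
    · rw [List.pairwise_reverse]
      rw [ht1] at pw1
      exact (List.pairwise_append.1 pw1).1
    · rw [ht2] at pw2
      exact (List.pairwise_append.1 pw2).1
  · -- case 2
    have b12 := hmlip x2 x1 hadj.symm
    have hx1B : x1 ∉ L.map Prod.fst := fun h => by
      have h1 := hmB x1 h
      have h2 := hℓM x1 h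
      omega
    have hx2B : x2 ∉ L.map Prod.fst := fun h => by
      have h1 := hmB x2 h
      have h2 := hℓM x2 h
      omega
    -- the ascending lists
    have hk1r : ∃ s1, k1.reverse = rt x1 :: s1 ∧ ∀ v ∈ s1, v ∉ L.map Prod.fst := by
      have e1 : rt x1 :: t1.reverse = k1.reverse ++ [x1] := by
        have : (t1 ++ [rt x1]).reverse = (x1 :: k1).reverse := by rw [← ht1, hk1]
        simpa using this
      cases hk : k1.reverse with
      | nil =>
        rw [hk] at e1
        simp only [List.nil_append, List.cons.injEq] at e1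
        exact absurd (e1.1 ▸ hb1) hx1B
      | cons a s =>
        rw [hk, List.cons_append, List.cons.injEq] at e1
        refine ⟨s, by rw [e1.1], ?_⟩
        intro v hv
        apply hB1
        rw [← List.mem_reverse, e1.2]
        simp [hv]
    have hk2r : ∃ s2, k2.reverse = rt x2 :: s2 ∧ ∀ v ∈ s2, v ∉ L.map Prod.fst := by
      have e1 : rt x2 :: t2.reverse = k2.reverse ++ [x2] := by
        have : (t2 ++ [rt x2]).reverse = (x2 :: k2).reverse := by rw [← ht2, hk2]
        simpa using this
      cases hk : k2.reverse with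
      | nil =>
        rw [hk] at e1
        simp only [List.nil_append, List.cons.injEq] at e1
        exact absurd (e1.1 ▸ hb2) hx2B
      | cons a s =>
        rw [hk, List.cons_append, List.cons.injEq] at e1
        refine ⟨s, by rw [e1.1], ?_⟩
        intro v hv
        apply hB2
        rw [← List.mem_reverse, e1.2]
        simp [hv]
    obtain ⟨s1, hs1, hsB1⟩ := hk1r
    obtain ⟨s2, hs2, hsB2⟩ := hk2r
    have ch1' : List.IsChain (S.grE (inner S R L)).Adj (k1.reverse ++ [x1]) := by
      have : k1.reverse ++ [x1] = l1.reverse := by rw [hk1]; simp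
      rw [this, hsymm]
      exact ch1
    have ch2' : List.IsChain (S.grE (inner S R L)).Adj (k2.reverse ++ [x2]) := by
      have : k2.reverse ++ [x2] = l2.reverse := by rw [hk2]; simp
      rw [this, hsymm]
      exact ch2
    have hup1 : Up m (k1.reverse ++ [x1]) := by
      have : k1.reverse ++ [x1] = l1.reverse := by rw [hk1]; simp
      rw [this, up_iff, List.isChain_reverse]
      exact up1
    have hup2 : Up m (k2.reverse ++ [x2]) := by
      have : k2.reverse ++ [x2] = l2.reverse := by rw [hk2]; simp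
      rw [this, up_iff, List.isChain_reverse]
      exact up2
    obtain ⟨W1, w11, w12, w13⟩ := toW (inner S R L) s1 (rt x1) x1 (by rw [← hs1]; exact ch1')
    obtain ⟨W2, w21, w22, w23⟩ := toW (inner S R L) s2 (rt x2) x2 (by rw [← hs2]; exact ch2')
    obtain ⟨v1, hv1, v2, hv2, d1, d2, d3, p, hp⟩ :=
      hShort R L u hreg ℓ m hℓM hm x1 x2 hx1 hadj (by omega) (rt x1) (rt x2) W1 W2 hb1 hb2
        w12 w22 (fun e he => (w13 e he).1) (fun e he => (w23 e he).1)
        (by rw [w11, ← hs1]; exact hup1) (by rw [w21, ← hs2]; exact hup2)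
    rw [w11, ← hs1] at hv1
    rw [w21, ← hs2] at hv2
    have hv1l : v1 ∈ l1 := by
      rw [hk1]
      exact List.mem_cons_of_mem _ (List.mem_reverse.1 hv1)
    have hv2l : v2 ∈ l2 := by
      rw [hk2]
      exact List.mem_cons_of_mem _ (List.mem_reverse.1 hv2)
    have hv1R : v1 ∈ S.VR R := vr1 v1 hv1l
    have hv2R : v2 ∈ S.VR R := vr2 v2 hv2l
    -- the distance from v1
    obtain ⟨lam, hlam⟩ := hBfs S.V (S.gr R) {v1} (fun _ => 0) (fun x _ y _ q => Nat.zero_le _)
    have hlr : ∀ x ∈ S.VR R, (S.gr R).Reachable v1 x := fun x hx =>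
      (hconn v1 hv1R).symm.trans (hconn x hx)
    have hllip : ∀ x y, (S.gr R).Adj x y → lam y ≤ lam x + 1 :=
      fun x y h => hlam.lip x y h ⟨v1, rfl, hlr x (adj_VR S h).1⟩
    have hlB : ∀ b ∈ L.map Prod.fst, M < lam b := by
      intro b hb
      obtain ⟨c, hc, q, hq⟩ := ext_walk hlam _ b rfl ⟨v1, rfl, hlr b (hBVR b hb)⟩
      have hc' : c = v1 := hc
      subst hc'
      have := d1 b hb q.reverse
      rw [SimpleGraph.Walk.length_reverse] at this
      omega
    have hlB' : ∀ z ∈ L.map Prod.fst, m z < lam z := by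
      intro z hz
      have h1 := hlB z hz
      have h2 := hmB z hz
      have h3 := hℓM z hz
      omega
    have hl1' : lam v1 ≤ m v1 := by
      have : lam v1 = 0 := hlam.eq v1 rfl
      omega
    have hl2' : lam v2 ≤ m v2 := by
      have h1 := hlam.ub v1 rfl v2 p
      obtain ⟨b, hb, q, hq⟩ := ext_walk hm _ v2 rfl (hreach v2 hv2R)
      have h2 := d1 b hb (q.append p.reverse)
      rw [SimpleGraph.Walk.length_append, SimpleGraph.Walk.length_reverse] at h2
      omega
    obtain ⟨A1, z1, R1, hA1, hA1', hz1⟩ := first_split (fun v => lam v ≤ m v) k1.reverse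
      ⟨v1, hv1, hl1'⟩
    obtain ⟨A4, z2, R2, hA4, hA4', hz2⟩ := first_split (fun v => lam v ≤ m v) k2.reverse
      ⟨v2, hv2, hl2'⟩
    have pwk1 : (k1.reverse).Pairwise (fun a b => m a < m b) := by
      rw [List.pairwise_reverse]
      rw [hk1] at pw1
      exact (List.pairwise_cons.1 pw1).2
    have pwk2 : (k2.reverse).Pairwise (fun a b => m a < m b) := by
      rw [List.pairwise_reverse]
      rw [hk2] at pw2
      exact (List.pairwise_cons.1 pw2).2
    have hmz1 : m z1 ≤ 4 * M := by
      rw [hA1] at hv1 pwk1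
      rcases List.mem_append.1 hv1 with h | h
      · exact absurd hl1' (hA1' v1 h)
      · rcases List.mem_cons.1 h with h | h
        · rw [← h]; exact d2
        · have := (List.pairwise_cons.1 (List.pairwise_append.1 pwk1).2.1).1 v1 h
          omega
    have hmz2 : m z2 ≤ 4 * M := by
      rw [hA4] at hv2 pwk2
      rcases List.mem_append.1 hv2 with h | h
      · exact absurd hl2' (hA4' v2 h)
      · rcases List.mem_cons.1 h with h | h
        · rw [← h]; exact d3
        · have := (List.pairwise_cons.1 (List.pairwise_append.1 pwk2).2.1).1 v2 h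
          omega
    have hz1l : z1 ∈ l1 := by
      rw [hk1]
      refine List.mem_cons_of_mem _ (List.mem_reverse.1 ?_)
      rw [hA1]; simp
    have hz2l : z2 ∈ l2 := by
      rw [hk2]
      refine List.mem_cons_of_mem _ (List.mem_reverse.1 ?_)
      rw [hA4]; simp
    obtain ⟨C1, c11, c12, c13, c14⟩ := lam_desc hreg hlam hmlip hlr hlB' _ z1 rfl
      (vr1 z1 hz1l) hz1
    obtain ⟨C2, c21, c22, c23, c24⟩ := lam_desc hreg hlam hmlip hlr hlB' _ z2 rfl
      (vr2 z2 hz2l) hz2
    obtain ⟨D1, y, E1, hD1, hD1', hy⟩ := first_split (fun v => v ∈ z2 :: C2) (z1 :: C1)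
      ⟨v1, c12, c22⟩
    obtain ⟨D2, E2, hD2⟩ := List.append_of_mem hy
    -- A1 and A4 start with the roots
    have hA1c : ∃ A1', A1 = rt x1 :: A1' ∧ ∀ v ∈ A1', v ∉ L.map Prod.fst := by
      rw [hs1] at hA1
      cases A1 with
      | nil =>
        rw [List.nil_append, List.cons.injEq] at hA1
        rw [← hA1.1] at hz1
        exact absurd hz1 (not_le.2 (hlB' _ hb1))
      | cons a A =>
        rw [List.cons_append, List.cons.injEq] at hA1
        refine ⟨A, by rw [hA1.1], ?_⟩
        intro v hv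
        apply hsB1
        rw [hA1.2]; simp [hv]
    have hA4c : ∃ A4', A4 = rt x2 :: A4' ∧ ∀ v ∈ A4', v ∉ L.map Prod.fst := by
      rw [hs2] at hA4
      cases A4 with
      | nil =>
        rw [List.nil_append, List.cons.injEq] at hA4
        rw [← hA4.1] at hz2
        exact absurd hz2 (not_le.2 (hlB' _ hb2))
      | cons a A =>
        rw [List.cons_append, List.cons.injEq] at hA4
        refine ⟨A, by rw [hA4.1], ?_⟩
        intro v hv
        apply hsB2
        rw [hA4.2]; simp [hv]
    obtain ⟨a1, ha1, haB1⟩ := hA1c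
    obtain ⟨a4, ha4, haB4⟩ := hA4c
    have memA1 : ∀ v ∈ A1, v ∈ l1 := by
      intro v hv
      rw [hk1]
      refine List.mem_cons_of_mem _ (List.mem_reverse.1 ?_)
      rw [hA1]; simp [hv]
    have memA4 : ∀ v ∈ A4, v ∈ l2 := by
      intro v hv
      rw [hk2]
      refine List.mem_cons_of_mem _ (List.mem_reverse.1 ?_)
      rw [hA4]; simp [hv]
    have pwA1 : A1.Pairwise (fun a b => m a < m b) := by
      rw [hA1] at pwk1
      exact (List.pairwise_append.1 pwk1).1
    have pwA4 : A4.Pairwise (fun a b => m a < m b) := by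
      rw [hA4] at pwk2
      exact (List.pairwise_append.1 pwk2).1
    have mA1 : ∀ v ∈ A1, m v < m z1 := by
      intro v hv
      rw [hA1] at pwk1
      exact (List.pairwise_append.1 pwk1).2.2 v hv z1 (by simp)
    have mA4 : ∀ v ∈ A4, m v < m z2 := by
      intro v hv
      rw [hA4] at pwk2
      exact (List.pairwise_append.1 pwk2).2.2 v hv z2 (by simp)
    have pwD1 : (D1 ++ [y]).Pairwise (fun a b => lam b < lam a) := by
      have h1 : z1 :: C1 = (D1 ++ [y]) ++ E1 := by rw [hD1]; simp
      rw [h1] at c13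
      exact (List.pairwise_append.1 c13).1
    have pwD2 : (D2 ++ [y]).Pairwise (fun a b => lam b < lam a) := by
      have h1 : z2 :: C2 = (D2 ++ [y]) ++ E2 := by rw [hD2]; simp
      rw [h1] at c23
      exact (List.pairwise_append.1 c23).1
    have memD1 : ∀ v ∈ D1 ++ [y], v ∈ z1 :: C1 := by
      intro v hv
      rw [hD1]
      rcases List.mem_append.1 hv with h | h
      · simp [h]
      · rw [List.mem_singleton] at h
        simp [h]
    have memD2 : ∀ v ∈ D2, v ∈ z2 :: C2 := by
      intro v hv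
      rw [hD2]
      simp [hv]
    have lamD1 : ∀ v ∈ D1 ++ [y], lam v ≤ lam z1 := by
      intro v hv
      rcases List.mem_cons.1 (memD1 v hv) with h | h
      · rw [h]
      · exact ((List.pairwise_cons.1 c13).1 v h).le
    have lamD2 : ∀ v ∈ D2, lam v ≤ lam z2 := by
      intro v hv
      rcases List.mem_cons.1 (memD2 v hv) with h | h
      · rw [h]
      · exact ((List.pairwise_cons.1 c23).1 v h).le
    -- chains
    have hD1h : ∃ t, D1 ++ [y] = z1 :: t := by
      cases D1 with
      | nil =>
        rw [List.nil_append, List.cons.injEq] at hD1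
        exact ⟨[], by rw [hD1.1]; rfl⟩
      | cons a D =>
        rw [List.cons_append, List.cons.injEq] at hD1
        exact ⟨D ++ [y], by rw [hD1.1]; rfl⟩
    have hD2h : ∃ t, D2 ++ [y] = z2 :: t := by
      cases D2 with
      | nil =>
        rw [List.nil_append, List.cons.injEq] at hD2
        exact ⟨[], by rw [hD2.1]; rfl⟩
      | cons a D =>
        rw [List.cons_append, List.cons.injEq] at hD2
        exact ⟨D ++ [y], by rw [hD2.1]; rfl⟩
    have chA1 : List.IsChain (S.grE (inner S R L)).Adj (A1 ++ (D1 ++ [y])) := by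
      obtain ⟨t, ht⟩ := hD1h
      have h1 : List.IsChain (S.grE (inner S R L)).Adj (D1 ++ [y]) := by
        rw [hD1] at c11
        exact (List.isChain_split.1 c11).1
      rw [ht] at h1 ⊢
      refine glue ?_ h1
      have h2 := ch1'.left_of_append
      rw [hA1] at h2
      exact (List.isChain_split.1 h2).1
    have chA4 : List.IsChain (S.grE (inner S R L)).Adj (A4 ++ (D2 ++ [y])) := by
      obtain ⟨t, ht⟩ := hD2h
      have h1 : List.IsChain (S.grE (inner S R L)).Adj (D2 ++ [y]) := by
        rw [hD2] at c21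
        exact (List.isChain_split.1 c21).1
      rw [ht] at h1 ⊢
      refine glue ?_ h1
      have h2 := ch2'.left_of_append
      rw [hA4] at h2
      exact (List.isChain_split.1 h2).1
    have chW : List.IsChain (S.grE (inner S R L)).Adj
        (rt x1 :: (a1 ++ (D1 ++ [y]) ++ D2.reverse ++ a4.reverse) ++ [rt x2]) := by
      have e1 : rt x1 :: (a1 ++ (D1 ++ [y]) ++ D2.reverse ++ a4.reverse) ++ [rt x2] =
          (A1 ++ D1) ++ y :: (D2.reverse ++ A4.reverse) := by
        rw [ha1, ha4]; simp
      rw [e1]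
      refine glue ?_ ?_
      · rw [List.append_assoc]; exact chA1
      · have e2 : y :: (D2.reverse ++ A4.reverse) = (A4 ++ (D2 ++ [y])).reverse := by simp
        rw [e2, hsymm]
        exact chA4
    have hfD : ∀ v, lam v ≤ m v → min (m v) (lam v) = lam v := fun v h => min_eq_right h
    have hfA : ∀ v, ¬ lam v ≤ m v → min (m v) (lam v) = m v :=
      fun v h => min_eq_left (not_le.1 h).le
    have cD1 : ∀ v ∈ D1 ++ [y], lam v ≤ m v := fun v hv => c14 v (memD1 v hv)
    have cD2 : ∀ v ∈ D2, lam v ≤ m v := fun v hv => c24 v (memD2 v hv)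
    have ca1 : ∀ v ∈ a1, ¬ lam v ≤ m v := fun v hv => hA1' v (by rw [ha1]; simp [hv])
    have ca4 : ∀ v ∈ a4, ¬ lam v ≤ m v := fun v hv => hA4' v (by rw [ha4]; simp [hv])
    have pwa1 : a1.Pairwise (fun a b => m a < m b) := by
      rw [ha1] at pwA1
      exact (List.pairwise_cons.1 pwA1).2
    have pwa4 : a4.Pairwise (fun a b => m a < m b) := by
      rw [ha4] at pwA4
      exact (List.pairwise_cons.1 pwA4).2
    refine finish hM hFold hreg ℓ hℓM (fun v => min (m v) (lam v)) ?_ ?_ hb1 hb2 hne
      a1 (D1 ++ [y]) D2.reverse a4.reverse chW ?_ ?_ ?_ ?_ ?_ ?_ ?_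
    · intro v hv
      show min (m v) (lam v) = ℓ v
      rw [hfA v (not_le.2 (hlB' v hv)), hmB v hv]
    · intro x y hxy
      show min (m y) (lam y) ≤ min (m x) (lam x) + 1
      have h1 := hmlip x y hxy
      have h2 := hllip x y hxy
      omega
    · rw [List.nodup_append, List.nodup_append, List.nodup_append]
      refine ⟨⟨⟨?_, ?_, ?_⟩, ?_, ?_⟩, ?_, ?_⟩
      · exact pwa1.imp (fun {a b} h => by
          rintro rfl
          exact lt_irrefl _ h)
      · exact pwD1.imp (fun {a b} h => by
          rintro rfl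
          exact lt_irrefl _ h)
      · intro a ha b hb hab
        subst hab
        exact ca1 a ha (cD1 a hb)
      · rw [List.nodup_reverse]
        exact (List.pairwise_append.1 pwD2).1.imp (fun {a b} h => by
          rintro rfl
          exact lt_irrefl _ h)
      · intro a ha b hb hab
        subst hab
        rw [List.mem_reverse] at hb
        rcases List.mem_append.1 ha with h | h
        · exact ca1 a h (cD2 a hb)
        · rcases List.mem_append.1 h with h | h
          · exact hD1' a h (memD2 a hb)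
          · rw [List.mem_singleton] at h
            have := (List.pairwise_append.1 pwD2).2.2 a hb y (by simp)
            rw [h] at this
            exact lt_irrefl _ this
      · rw [List.nodup_reverse]
        exact pwa4.imp (fun {a b} h => by
          rintro rfl
          exact lt_irrefl _ h)
      · intro a ha b hb hab
        subst hab
        rw [List.mem_reverse] at hb
        rcases List.mem_append.1 ha with h | h
        · rcases List.mem_append.1 h with h | h
          · exact disj a (memA1 a (by rw [ha1]; simp [h])) (memA4 a (by rw [ha4]; simp [hb]))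
          · exact ca4 a hb (cD1 a h)
        · rw [List.mem_reverse] at h
          exact ca4 a hb (cD2 a h)
    · intro v hv
      rcases List.mem_append.1 hv with h | h
      · rcases List.mem_append.1 h with h | h
        · rcases List.mem_append.1 h with h | h
          · exact haB1 v h
          · intro hvL
            exact absurd (cD1 v h) (not_le.2 (hlB' v hvL))
        · intro hvL
          exact absurd (cD2 v (List.mem_reverse.1 h)) (not_le.2 (hlB' v hvL))
      · exact haB4 v (List.mem_reverse.1 h)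
    · intro v hv
      show min (m v) (lam v) < 6 * M
      rcases List.mem_append.1 hv with h | h
      · rcases List.mem_append.1 h with h | h
        · rcases List.mem_append.1 h with h | h
          · have := mA1 v (by rw [ha1]; simp [h])
            omega
          · have := lamD1 v h
            omega
        · have := lamD2 v (List.mem_reverse.1 h)
          omega
      · have := mA4 v (by rw [ha4]; simp [List.mem_reverse.1 h])
        omega
    · refine List.Pairwise.imp_of_mem ?_ pwa1
      intro a b ha hb hab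
      show min (m a) (lam a) < min (m b) (lam b)
      rw [hfA a (ca1 a ha), hfA b (ca1 b hb)]
      exact hab
    · refine List.Pairwise.imp_of_mem ?_ pwD1
      intro a b ha hb hab
      show min (m b) (lam b) < min (m a) (lam a)
      rw [hfD a (cD1 a ha), hfD b (cD1 b hb)]
      exact hab
    · rw [List.pairwise_reverse]
      refine List.Pairwise.imp_of_mem ?_ (List.pairwise_append.1 pwD2).1
      intro a b ha hb hab
      show min (m b) (lam b) < min (m a) (lam a)
      rw [hfD a (cD2 a ha), hfD b (cD2 b hb)]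
      exact hab
    · rw [List.pairwise_reverse]
      refine List.Pairwise.imp_of_mem ?_ pwa4
      intro a b ha hb hab
      show min (m a) (lam a) < min (m b) (lam b)
      rw [hfA a (ca4 a ha), hfA b (ca4 b hb)]
      exact hab

end graph

end Helper35_PP
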