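import Pool.Agent.Helper91_PP.Statements

/-!
# Tools for module E (good chords)
-/

namespace Helper35_PP

open H91PP H91PP.TriSphere

/-! ## lists -/

theorem first_split {α : Type} (p : α → Prop) : ∀ l : List α, (∃ x ∈ l, p x) →
    ∃ A z R, l = A ++ z :: R ∧ (∀ a ∈ A, ¬ p a) ∧ p z := by
  classical
  intro l
  induction l with
  | nil => rintro ⟨x, hx, -⟩; simp at hx
  | cons a l ih =>
    rintro ⟨x, hx, hp⟩
    by_cases ha : p a
    · exact ⟨[], a, l, rfl, by simp, ha⟩
    · have : ∃ x ∈ l, p x := by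
        rcases List.mem_cons.1 hx with h | h
        · exact absurd (h ▸ hp) ha
        · exact ⟨x, h, hp⟩
      obtain ⟨A, z, R, h1, h2, h3⟩ := ih this
      refine ⟨a :: A, z, R, by rw [h1]; rfl, ?_, h3⟩
      intro b hb
      rcases List.mem_cons.1 hb with h | h
      · rw [h]; exact ha
      · exact h2 b h

theorem glue {α : Type} {r : α → α → Prop} {A t : List α} {z : α}
    (h1 : List.IsChain r (A ++ [z])) (h2 : List.IsChain r (z :: t)) :
    List.IsChain r (A ++ z :: t) :=
  List.isChain_split.2 ⟨h1, h2⟩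

theorem up_iff {V : Type} (m : V → ℕ) : ∀ l : List V,
    Up m l ↔ List.IsChain (fun x y => m y = m x + 1) l
  | [] => by simp [Up]
  | [a] => by simp [Up]
  | a :: b :: l => by
    rw [List.isChain_cons_cons, ← up_iff m (b :: l)]
    rfl

/-! ## number of changes -/

theorem chg_cons_cons {α β : Type} (f : α → β) (x y : α) (l : List α) :
    chg f (x :: y :: l) ≤ 1 + chg f (y :: l) := by
  classical
  simp only [chg]
  split_ifs <;> omega

theorem chg_append {α β : Type} (f : α → β) : ∀ (l1 l2 : List α),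
    chg f (l1 ++ l2) ≤ chg f l1 + 1 + chg f l2
  | [], l2 => by simp [chg]
  | [a], [] => by simp [chg]
  | [a], b :: l2 => by
    have := chg_cons_cons f a b l2
    simp only [List.singleton_append, chg] at this ⊢
    omega
  | a :: b :: l1, l2 => by
    have ih := chg_append f (b :: l1) l2
    simp only [List.cons_append, chg] at ih ⊢
    omega

theorem chg_up {α : Type} (f : α → ℕ) (c : ℕ) : ∀ (l : List α) (x : α),
    List.Pairwise (fun a b => f a ≤ f b) (x :: l) → (∀ v ∈ x :: l, f v ≤ c) →
    chg f (x :: l) + f x ≤ c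
  | [], x, _, h => by simpa [chg] using h x (by simp)
  | y :: l, x, h, hc => by
    have ih := chg_up f c l y (List.pairwise_cons.1 h).2
      (fun v hv => hc v (List.mem_cons_of_mem _ hv))
    have h1 : f x ≤ f y := (List.pairwise_cons.1 h).1 y (by simp)
    simp only [chg]
    split_ifs with h2 <;> omega

theorem chg_down {α : Type} (f : α → ℕ) (c : ℕ) : ∀ (l : List α) (x : α),
    List.Pairwise (fun a b => f b ≤ f a) (x :: l) → (∀ v ∈ x :: l, c ≤ f v) →
    chg f (x :: l) + c ≤ f x
  | [], x, _, h => by simpa [chg] using h x (by simp)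
  | y :: l, x, h, hc => by
    have ih := chg_down f c l y (List.pairwise_cons.1 h).2
      (fun v hv => hc v (List.mem_cons_of_mem _ hv))
    have h1 : f y ≤ f x := (List.pairwise_cons.1 h).1 y (by simp)
    simp only [chg]
    split_ifs with h2 <;> omega

theorem chg_le_five_up {α : Type} (f : α → ℕ) (c : ℕ) (l : List α)
    (h : List.Pairwise (fun a b => f a ≤ f b) l) (h1 : ∀ v ∈ l, c ≤ f v)
    (h2 : ∀ v ∈ l, f v ≤ c + 5) : chg f l ≤ 5 := by
  cases l with
  | nil => simp [chg]
  | cons x l =>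
    have := chg_up f (c + 5) l x h h2
    have := h1 x (by simp)
    omega

theorem chg_le_five_down {α : Type} (f : α → ℕ) (c : ℕ) (l : List α)
    (h : List.Pairwise (fun a b => f b ≤ f a) l) (h1 : ∀ v ∈ l, c ≤ f v)
    (h2 : ∀ v ∈ l, f v ≤ c + 5) : chg f l ≤ 5 := by
  cases l with
  | nil => simp [chg]
  | cons x l =>
    have := chg_down f c l x h h1
    have := h2 x (by simp)
    omega

/-- The labelling with four pieces. -/
theorem kappa {V : Type} (M : ℕ) (fo : ℕ → ℕ)
    (hfo : ∀ t t', t / M = t' / M → fo t = fo t' → t = t')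
    (f : V → ℕ) (A0 A1 A2 A3 : List V)
    (hnd : (A0 ++ A1 ++ A2 ++ A3).Nodup)
    (hf : ∀ v ∈ A0 ++ A1 ++ A2 ++ A3, f v < 6 * M)
    (h0 : A0.Pairwise (fun a b => f a < f b))
    (h1 : A1.Pairwise (fun a b => f b < f a))
    (h2 : A2.Pairwise (fun a b => f a < f b))
    (h3 : A3.Pairwise (fun a b => f b < f a)) :
    ∃ κ : V → ℕ, (∀ v, κ v < 24) ∧
      (∀ x ∈ A0 ++ A1 ++ A2 ++ A3, ∀ y ∈ A0 ++ A1 ++ A2 ++ A3,
        κ x = κ y → fo (f x) = fo (f y) → x = y) ∧
      chg κ (A0 ++ A1 ++ A2 ++ A3) ≤ 23 := by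
  classical
  obtain ⟨g, hg⟩ : ∃ g : V → ℕ, ∀ v, g v = f v / M := ⟨_, fun _ => rfl⟩
  have hgm : ∀ a b, f a < f b → g a ≤ g b := by
    intro a b h
    rw [hg, hg]
    exact Nat.div_le_div_right h.le
  have hq : ∀ v ∈ A0 ++ A1 ++ A2 ++ A3, g v ≤ 5 := by
    intro v hv
    have := hf v hv
    have h : f v / M < 6 := Nat.div_lt_of_lt_mul (by rw [Nat.mul_comm]; exact this)
    rw [hg]
    exact Nat.lt_succ_iff.1 h
  set κ : V → ℕ := fun v => if v ∈ A0 then min (g v) 5 else
    if v ∈ A1 then 6 + min (g v) 5 else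
    if v ∈ A2 then 12 + min (g v) 5 else
    if v ∈ A3 then 18 + min (g v) 5 else 0 with hκ
  have hnd1 := List.nodup_append.1 hnd
  have hnd2 := List.nodup_append.1 hnd1.1
  have hnd3 := List.nodup_append.1 hnd2.1
  have d3 : ∀ v ∈ A3, v ∉ A0 ∧ v ∉ A1 ∧ v ∉ A2 := by
    intro v hv
    refine ⟨fun h => ?_, fun h => ?_, fun h => ?_⟩
    · exact hnd1.2.2 v (by simp [h]) v hv rfl
    · exact hnd1.2.2 v (by simp [h]) v hv rfl
    · exact hnd1.2.2 v (by simp [h]) v hv rfl
  have d2 : ∀ v ∈ A2, v ∉ A0 ∧ v ∉ A1 := by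
    intro v hv
    refine ⟨fun h => ?_, fun h => ?_⟩
    · exact hnd2.2.2 v (by simp [h]) v hv rfl
    · exact hnd2.2.2 v (by simp [h]) v hv rfl
  have d1 : ∀ v ∈ A1, v ∉ A0 := by
    intro v hv h
    exact hnd3.2.2 v h v hv rfl
  have k0 : ∀ v ∈ A0, κ v = g v := by
    intro v hv
    have := hq v (by simp [hv])
    simp only [hκ, hv, if_true]
    omega
  have k1 : ∀ v ∈ A1, κ v = 6 + g v := by
    intro v hv
    have := hq v (by simp [hv])
    have h' := d1 v hv
    simp only [hκ, hv, h', if_true, if_false]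
    omega
  have k2 : ∀ v ∈ A2, κ v = 12 + g v := by
    intro v hv
    have := hq v (by simp [hv])
    have h' := d2 v hv
    simp only [hκ, hv, h'.1, h'.2, if_true, if_false]
    omega
  have k3 : ∀ v ∈ A3, κ v = 18 + g v := by
    intro v hv
    have := hq v (by simp [hv])
    have h' := d3 v hv
    simp only [hκ, hv, h'.1, h'.2.1, h'.2.2, if_true, if_false]
    omega
  have inj : ∀ (A : List V) (s : V → V → Prop), A.Pairwise s →
      (∀ a b, s a b → f a ≠ f b) → ∀ x ∈ A, ∀ y ∈ A, f x = f y → x = y := by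
    intro A s hA hs x hx y hy hxy
    by_contra hne
    have h4 : A.Pairwise (fun a b => f a ≠ f b) := hA.imp (fun {a b} h => hs a b h)
    have : Std.Symm (fun a b : V => f a ≠ f b) := ⟨fun a b h => Ne.symm h⟩
    exact h4.forall hx hy hne hxy
  refine ⟨κ, ?_, ?_, ?_⟩
  · intro v
    simp only [hκ]
    split_ifs <;> omega
  · intro x hx y hy hxy hfxy
    have qx := hq x hx
    have qy := hq y hy
    have hdiv : g x = g y → f x = f y := by
      intro h
      rw [hg, hg] at h
      exact hfo _ _ h hfxy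
    simp only [List.mem_append] at hx hy
    rcases hx with ((hx | hx) | hx) | hx <;> rcases hy with ((hy | hy) | hy) | hy
    · rw [k0 x hx, k0 y hy] at hxy
      exact inj A0 _ h0 (fun a b h => by omega) x hx y hy (hdiv hxy)
    · rw [k0 x hx, k1 y hy] at hxy; omega
    · rw [k0 x hx, k2 y hy] at hxy; omega
    · rw [k0 x hx, k3 y hy] at hxy; omega
    · rw [k1 x hx, k0 y hy] at hxy; omega
    · rw [k1 x hx, k1 y hy] at hxy
      exact inj A1 _ h1 (fun a b h => by omega) x hx y hy (hdiv (by omega))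
    · rw [k1 x hx, k2 y hy] at hxy; omega
    · rw [k1 x hx, k3 y hy] at hxy; omega
    · rw [k2 x hx, k0 y hy] at hxy; omega
    · rw [k2 x hx, k1 y hy] at hxy; omega
    · rw [k2 x hx, k2 y hy] at hxy
      exact inj A2 _ h2 (fun a b h => by omega) x hx y hy (hdiv (by omega))
    · rw [k2 x hx, k3 y hy] at hxy; omega
    · rw [k3 x hx, k0 y hy] at hxy; omega
    · rw [k3 x hx, k1 y hy] at hxy; omega
    · rw [k3 x hx, k2 y hy] at hxy; omega
    · rw [k3 x hx, k3 y hy] at hxy
      exact inj A3 _ h3 (fun a b h => by omega) x hx y hy (hdiv (by omega))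
  · have c0 : chg κ A0 ≤ 5 := by
      refine chg_le_five_up κ 0 A0 ?_ (fun v _ => Nat.zero_le _) ?_
      · refine List.Pairwise.imp_of_mem ?_ h0
        intro a b ha hb hab
        rw [k0 a ha, k0 b hb]
        exact hgm _ _ hab
      · intro v hv
        rw [k0 v hv]
        have := hq v (by simp [hv])
        omega
    have c1 : chg κ A1 ≤ 5 := by
      refine chg_le_five_down κ 6 A1 ?_ ?_ ?_
      · refine List.Pairwise.imp_of_mem ?_ h1
        intro a b ha hb hab
        rw [k1 a ha, k1 b hb]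
        have := hgm _ _ hab
        omega
      · intro v hv
        rw [k1 v hv]
        omega
      · intro v hv
        rw [k1 v hv]
        have := hq v (by simp [hv])
        omega
    have c2 : chg κ A2 ≤ 5 := by
      refine chg_le_five_up κ 12 A2 ?_ ?_ ?_
      · refine List.Pairwise.imp_of_mem ?_ h2
        intro a b ha hb hab
        rw [k2 a ha, k2 b hb]
        have := hgm _ _ hab
        omega
      · intro v hv
        rw [k2 v hv]
        omega
      · intro v hv
        rw [k2 v hv]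
        have := hq v (by simp [hv])
        omega
    have c3 : chg κ A3 ≤ 5 := by
      refine chg_le_five_down κ 18 A3 ?_ ?_ ?_
      · refine List.Pairwise.imp_of_mem ?_ h3
        intro a b ha hb hab
        rw [k3 a ha, k3 b hb]
        have := hgm _ _ hab
        omega
      · intro v hv
        rw [k3 v hv]
        omega
      · intro v hv
        rw [k3 v hv]
        have := hq v (by simp [hv])
        omega
    have a1 := chg_append κ (A0 ++ A1 ++ A2) A3
    have a2 := chg_append κ (A0 ++ A1) A2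
    have a3 := chg_append κ A0 A1
    omega

end Helper35_PP
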